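import Pool.Agent.H334R2.CM.Defs

/-!
# Project CM, task PSLB: Bruhat normal form of `PSL(2,q)`
-/

set_option autoImplicit false
open scoped Matrix MatrixGroups
universe u
namespace CM
namespace PSLB

variable {q : ℕ} [Fact q.Prime]

/-- upper unitriangular matrices -/
def nm (x : ZMod q) : SL(2, ZMod q) := ⟨!![1, x; 0, 1], by simp [Matrix.det_fin_two]⟩

/-- diagonal matrices -/
def dm (a : (ZMod q)ˣ) : SL(2, ZMod q) :=
  ⟨!![(a : ZMod q), 0; 0, ((a⁻¹ : (ZMod q)ˣ) : ZMod q)], by
    rw [Matrix.det_fin_two]; simp [-ZMod.inv_coe_unit]⟩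

/-- the Weyl element -/
def wm : SL(2, ZMod q) := ⟨!![0, 1; -1, 0], by simp [Matrix.det_fin_two]⟩

lemma mk_eq_iff (g h : SL(2, ZMod q)) :
    (QuotientGroup.mk g : PSL(2, ZMod q)) = QuotientGroup.mk h ↔
      ∃ r : ZMod q, (r = 1 ∨ r = -1) ∧ ∀ i j, h.1 i j = r * g.1 i j := by
  rw [QuotientGroup.eq, Matrix.SpecialLinearGroup.mem_center_iff]
  constructor
  · rintro ⟨r, hr, h1⟩
    rw [Fintype.card_fin] at hr
    refine ⟨r, ?_, ?_⟩
    · have : (r - 1) * (r + 1) = 0 := by linear_combination hr
      rcases mul_eq_zero.1 this with h2 | h2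
      · left; linear_combination h2
      · right; linear_combination h2
    · have h2 : g.1 * (Matrix.scalar (Fin 2) r) = h.1 := by
        rw [h1]
        rw [← Matrix.SpecialLinearGroup.coe_mul]
        rw [mul_inv_cancel_left]
      intro i j
      rw [← h2]
      simp [Matrix.mul_apply, Matrix.scalar_apply, Matrix.diagonal_apply, mul_comm]
  · rintro ⟨r, hr, h1⟩
    refine ⟨r, ?_, ?_⟩
    · rw [Fintype.card_fin]
      rcases hr with rfl | rfl <;> ring
    · have h2 : g.1 * (Matrix.scalar (Fin 2) r) = h.1 := by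
        ext i j
        rw [h1]
        simp [Matrix.mul_apply, Matrix.scalar_apply, Matrix.diagonal_apply, mul_comm]
      rw [Matrix.SpecialLinearGroup.coe_mul, ← h2, ← mul_assoc, ← Matrix.SpecialLinearGroup.coe_mul,
        inv_mul_cancel, Matrix.SpecialLinearGroup.coe_one, one_mul]

lemma mk_eq_of_eq {g h : SL(2, ZMod q)} (e : g.1 = h.1) :
    (QuotientGroup.mk g : PSL(2, ZMod q)) = QuotientGroup.mk h := by
  rw [mk_eq_iff]
  exact ⟨1, Or.inl rfl, by intro i j; rw [e, one_mul]⟩

lemma mk_eq_of_neg {g h : SL(2, ZMod q)} (e : h.1 = -g.1) :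
    (QuotientGroup.mk g : PSL(2, ZMod q)) = QuotientGroup.mk h := by
  rw [mk_eq_iff]
  exact ⟨-1, Or.inr rfl, by intro i j; rw [e]; simp⟩

lemma nm_coe (x : ZMod q) : (nm x).1 = !![1, x; 0, 1] := rfl

lemma wm_coe : (wm : SL(2, ZMod q)).1 = !![0, 1; -1, 0] := rfl

lemma dm_coe (a : (ZMod q)ˣ) : (dm a).1 = !![(a : ZMod q), 0; 0, (a : ZMod q)⁻¹] := by
  simp [dm, -ZMod.inv_coe_unit]

lemma nm_mul (x y : ZMod q) : nm x * nm y = nm (x + y) := by
  apply Subtype.ext
  rw [Matrix.SpecialLinearGroup.coe_mul]
  simp [nm_coe, add_comm]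

lemma dm_mul (a b : (ZMod q)ˣ) : dm a * dm b = dm (a * b) := by
  apply Subtype.ext
  rw [Matrix.SpecialLinearGroup.coe_mul]
  simp [dm_coe, -ZMod.inv_coe_unit, mul_comm]

/-- the matrix of `n x * d a` -/
lemma nd_coe (x : ZMod q) (a : (ZMod q)ˣ) :
    (nm x * dm a).1 = !![(a : ZMod q), x * (a : ZMod q)⁻¹; 0, (a : ZMod q)⁻¹] := by
  rw [Matrix.SpecialLinearGroup.coe_mul]
  simp [nm_coe, dm_coe, -ZMod.inv_coe_unit]

/-- the matrix of `n x * w * d a * n y` -/
lemma nwdn_coe (x y : ZMod q) (a : (ZMod q)ˣ) :
    (nm x * wm * dm a * nm y).1 =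
      !![-(x * a), -(x * a * y) + (a : ZMod q)⁻¹; -a, -(a * y)] := by
  rw [Matrix.SpecialLinearGroup.coe_mul, Matrix.SpecialLinearGroup.coe_mul,
    Matrix.SpecialLinearGroup.coe_mul]
  simp [nm_coe, dm_coe, wm_coe, -ZMod.inv_coe_unit]

lemma unit_eq_of {a b : (ZMod q)ˣ} {r : ZMod q} (hr : r = 1 ∨ r = -1)
    (h : (b : ZMod q) = r * a) : a = b ∨ a = -b := by
  rcases hr with rfl | rfl
  · left; ext; rw [h, one_mul]
  · right; ext; rw [Units.val_neg, h]; ring

end PSLB

open PSLB

/-- Bruhat decomposition of `PSL(2,q)` -/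
theorem PSLB (q : ℕ) [Fact q.Prime] (hq : q ≠ 2) : Nonempty (BN q PSL(2, ZMod q)) := by
  refine ⟨{
    n := fun x => QuotientGroup.mk (nm x)
    d := fun a => QuotientGroup.mk (dm a)
    w := QuotientGroup.mk wm
    n_add := ?_
    d_mul := ?_
    d_neg := ?_
    dn := ?_
    ww := ?_
    wd := ?_
    wnw := ?_
    cover := ?_
    inj1 := ?_
    inj2 := ?_
    disj := ?_ }⟩
  · intro x y
    rw [← QuotientGroup.mk_mul, nm_mul]
  · intro a b
    rw [← QuotientGroup.mk_mul, dm_mul]
  · rw [← QuotientGroup.mk_one]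
    apply mk_eq_of_neg
    ext i j
    fin_cases i <;> fin_cases j <;> simp [dm_coe, -ZMod.inv_coe_unit]
  · intro a x
    rw [← QuotientGroup.mk_mul, ← QuotientGroup.mk_mul]
    apply mk_eq_of_eq
    have := a.ne_zero
    rw [nd_coe, Matrix.SpecialLinearGroup.coe_mul, dm_coe, nm_coe]
    ext i j
    fin_cases i <;> fin_cases j <;> simp [-ZMod.inv_coe_unit]
    field_simp
  · rw [← QuotientGroup.mk_mul, ← QuotientGroup.mk_one]
    apply mk_eq_of_neg
    rw [Matrix.SpecialLinearGroup.coe_mul, wm_coe]
    ext i j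
    fin_cases i <;> fin_cases j <;> simp
  · intro a
    rw [← QuotientGroup.mk_mul, ← QuotientGroup.mk_mul]
    apply mk_eq_of_eq
    rw [Matrix.SpecialLinearGroup.coe_mul, Matrix.SpecialLinearGroup.coe_mul, wm_coe, dm_coe,
      dm_coe]
    ext i j
    fin_cases i <;> fin_cases j <;> simp [-ZMod.inv_coe_unit]
  · intro a
    simp only [← QuotientGroup.mk_mul]
    apply mk_eq_of_neg
    have := a.ne_zero
    rw [nwdn_coe, Matrix.SpecialLinearGroup.coe_mul, Matrix.SpecialLinearGroup.coe_mul, wm_coe,
      nm_coe]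
    ext i j
    fin_cases i <;> fin_cases j <;> simp [-ZMod.inv_coe_unit] <;> field_simp
  · intro g
    obtain ⟨g, rfl⟩ := QuotientGroup.mk_surjective g
    have hdet := g.2
    rw [Matrix.det_fin_two] at hdet
    by_cases hc : g.1 1 0 = 0
    · left
      rw [hc, mul_zero, sub_zero] at hdet
      have ha : g.1 0 0 ≠ 0 := by
        intro h; rw [h, zero_mul] at hdet; exact zero_ne_one hdet
      refine ⟨g.1 0 1 * g.1 0 0, Units.mk0 _ ha, ?_⟩
      rw [← QuotientGroup.mk_mul]
      apply mk_eq_of_eq
      rw [nd_coe]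
      ext i j
      fin_cases i <;> fin_cases j
      · simp
      · simp [ha]
      · simpa using hc
      · simp only [Fin.mk_one, Fin.isValue, Units.val_mk0,
          Matrix.of_apply, Matrix.cons_val', Matrix.cons_val_one, Matrix.cons_val_fin_one]
        apply eq_inv_of_mul_eq_one_left
        linear_combination hdet
    · right
      refine ⟨g.1 0 0 / g.1 1 0, Units.mk0 (-g.1 1 0) (neg_ne_zero.2 hc), g.1 1 1 / g.1 1 0, ?_⟩
      simp only [← QuotientGroup.mk_mul]
      apply mk_eq_of_eq
      rw [nwdn_coe]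
      ext i j
      fin_cases i <;> fin_cases j
      · simp
        field_simp
      · simp
        field_simp
        linear_combination -hdet
      · simp
      · simp
        field_simp
  · intro x a x' a' h
    simp only [← QuotientGroup.mk_mul] at h
    rw [mk_eq_iff] at h
    obtain ⟨r, hr, h⟩ := h
    rw [nd_coe, nd_coe] at h
    have h1 := h 0 0
    have h2 := h 0 1
    simp [-ZMod.inv_coe_unit] at h1 h2
    refine ⟨?_, unit_eq_of hr h1⟩
    have ha := a.ne_zero
    have ha' := a'.ne_zero
    rcases hr with rfl | rfl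
    · rw [one_mul] at h1 h2
      rw [h1] at h2
      field_simp at h2
      exact h2.symm
    · have h1' : (a' : ZMod q) = -a := by rw [h1]; ring
      rw [h1'] at h2
      field_simp at h2
      linear_combination h2
  · intro x a y x' a' y' h
    simp only [← QuotientGroup.mk_mul] at h
    rw [mk_eq_iff] at h
    obtain ⟨r, hr, h⟩ := h
    rw [nwdn_coe, nwdn_coe] at h
    have h1 := h 0 0
    have h2 := h 1 0
    have h3 := h 1 1
    simp [-ZMod.inv_coe_unit] at h1 h2 h3
    have ha := a.ne_zero
    have ha' := a'.ne_zero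
    refine ⟨?_, unit_eq_of hr h2, ?_⟩
    · rw [h2] at h1
      have hr0 : r ≠ 0 := by
        intro h0; rw [h0, zero_mul] at h2; exact ha' h2
      have : r * a * (x - x') = 0 := by linear_combination -h1
      have := (mul_eq_zero.1 this).resolve_left (mul_ne_zero hr0 ha)
      linear_combination this
    · rw [h2] at h3
      have hr0 : r ≠ 0 := by
        intro h0; rw [h0, zero_mul] at h2; exact ha' h2
      have : r * a * (y - y') = 0 := by linear_combination -h3
      have := (mul_eq_zero.1 this).resolve_left (mul_ne_zero hr0 ha)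
      linear_combination this
  · intro x a x' a' y' h
    simp only [← QuotientGroup.mk_mul] at h
    rw [mk_eq_iff] at h
    obtain ⟨r, hr, h⟩ := h
    rw [nwdn_coe, nd_coe] at h
    have h2 := h 1 0
    simp [-ZMod.inv_coe_unit] at h2

theorem BN_finite {q : ℕ} [Fact q.Prime] {G : Type} [Group G] (D : BN q G) : Finite G := by
  let f : (ZMod q × (ZMod q)ˣ) ⊕ (ZMod q × (ZMod q)ˣ × ZMod q) → G := fun s =>
    match s with
    | .inl p => D.n p.1 * D.d p.2
    | .inr p => D.n p.1 * D.w * D.d p.2.1 * D.n p.2.2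
  have hf : Function.Surjective f := by
    intro g
    rcases D.cover g with ⟨x, a, h⟩ | ⟨x, a, y, h⟩
    · exact ⟨.inl (x, a), h.symm⟩
    · exact ⟨.inr (x, a, y), h.symm⟩
  exact Finite.of_surjective f hf

theorem BN_card {q : ℕ} [Fact q.Prime] (hq : q ≠ 2) {G : Type} [Group G] (D : BN q G) :
    2 * Nat.card G = q * (q - 1) * (q + 1) := by
  classical
  have := BN_finite D
  have := Fintype.ofFinite G
  let S := (ZMod q × (ZMod q)ˣ) ⊕ (ZMod q × (ZMod q)ˣ × ZMod q)
  let f : S → G := fun s =>
    match s with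
    | .inl p => D.n p.1 * D.d p.2
    | .inr p => D.n p.1 * D.w * D.d p.2.1 * D.n p.2.2
  have hneg : ∀ a : (ZMod q)ˣ, D.d (-a) = D.d a := by
    intro a
    have : -a = (-1) * a := by simp
    rw [this, D.d_mul, D.d_neg, one_mul]
  have hne : ∀ a : (ZMod q)ˣ, a ≠ -a := by
    intro a h
    have h1 : (a : ZMod q) = -a := by
      have := congrArg Units.val h
      simpa using this
    have h2 : (2 : ZMod q) * a = 0 := by linear_combination h1
    have h3 := (mul_eq_zero.1 h2).resolve_right a.ne_zero
    have h4 : ((2 : ℕ) : ZMod q) = 0 := by exact_mod_cast h3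
    rw [ZMod.natCast_eq_zero_iff] at h4
    exact hq ((Nat.prime_dvd_prime_iff_eq Fact.out Nat.prime_two).1 h4)
  have hfib : ∀ g : G, (Finset.univ.filter fun s : S => f s = g).card = 2 := by
    intro g
    rcases D.cover g with ⟨x, a, h⟩ | ⟨x, a, y, h⟩
    · have : (Finset.univ.filter fun s : S => f s = g) = {.inl (x, a), .inl (x, -a)} := by
        ext s
        simp only [Finset.mem_filter, Finset.mem_univ, true_and, Finset.mem_insert,
          Finset.mem_singleton]
        constructor
        · intro hs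
          rcases s with ⟨x', a'⟩ | ⟨x', a', y'⟩
          · rw [h] at hs
            obtain ⟨h1, h2⟩ := D.inj1 _ _ _ _ hs
            change x' = x at h1
            change a' = a ∨ a' = -a at h2
            subst h1
            rcases h2 with h2 | h2
            · left; rw [h2]
            · right; rw [h2]
          · exact absurd (h.symm.trans hs.symm) (D.disj _ _ _ _ _)
        · rintro (rfl | rfl)
          · exact h.symm
          · change D.n x * D.d (-a) = g
            rw [hneg]; exact h.symm
      rw [this, Finset.card_pair]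
      intro h
      exact hne a (Prod.ext_iff.1 (Sum.inl.inj h)).2
    · have : (Finset.univ.filter fun s : S => f s = g) = {.inr (x, a, y), .inr (x, -a, y)} := by
        ext s
        simp only [Finset.mem_filter, Finset.mem_univ, true_and, Finset.mem_insert,
          Finset.mem_singleton]
        constructor
        · intro hs
          rcases s with ⟨x', a'⟩ | ⟨x', a', y'⟩
          · exact absurd (hs.trans h) (D.disj _ _ _ _ _)
          · rw [h] at hs
            obtain ⟨h1, h2, h3⟩ := D.inj2 _ _ _ _ _ _ hs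
            change x' = x at h1
            change a' = a ∨ a' = -a at h2
            change y' = y at h3
            subst h1
            subst h3
            rcases h2 with h2 | h2
            · left; rw [h2]
            · right; rw [h2]
        · rintro (rfl | rfl)
          · exact h.symm
          · change D.n x * D.w * D.d (-a) * D.n y = g
            rw [hneg]; exact h.symm
      rw [this, Finset.card_pair]
      intro h
      exact hne a (Prod.ext_iff.1 (Prod.ext_iff.1 (Sum.inr.inj h)).2).1
  have hcard : Fintype.card S = 2 * Fintype.card G := by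
    have h1 := Finset.card_eq_sum_card_fiberwise (f := f) (s := (Finset.univ : Finset S))
      (t := (Finset.univ : Finset G)) (fun _ _ => Finset.mem_univ _)
    rw [Finset.card_univ] at h1
    rw [h1, Finset.sum_congr rfl (fun g _ => hfib g), Finset.sum_const, Finset.card_univ,
      smul_eq_mul, mul_comm]
  rw [Nat.card_eq_fintype_card, ← hcard]
  have h5 : Fintype.card S = q * (q - 1) + q * ((q - 1) * q) := by
    simp only [S, Fintype.card_sum, Fintype.card_prod, ZMod.card, ZMod.card_units]
  rw [h5]
  ring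

end CM
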